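import Pool.Agent.L0h29.EN.Rec
import Pool.Agent.L0h29.EN.Flat
import Pool.Agent.L0h29.SP.Lim

/-!
# Simply connected 4-manifolds off closed null sets: the critical gauge function is `r²`

Let `m : [0, ∞] → [0, ∞]` be any function with `m 0 = 0`, and let `H^m` be the Hausdorff measure with
gauge function `m` (for `m r = r ^ s` it is the `s`-dimensional Hausdorff measure). Let `M` and `N` be
closed connected smooth 4-manifolds, where `N` is simply connected.

(1) Suppose that the lower limit of `m r / r ^ 2` for `r → 0` is zero. Then there is a closed subset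
`Z` of `N` with `H^m Z = 0` whose complement is diffeomorphic to `ℝ⁴`. So all closed simply connected
smooth 4-manifolds become diffeomorphic off closed `H^m`-null sets.

(2) Suppose that this lower limit is positive. Then the complement of some closed `H^m`-null subset of
`N` is diffeomorphic to an open subset of `M` if and only if `M` is a connected sum of `N` and a closed
smooth 4-manifold. If `M` is simply connected, then some closed `H^m`-null subsets of `M` and `N` have
diffeomorphic complements if and only if `M` is a connected sum of `N` and an invertible homotopy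
4-sphere, and if and only if there is a homeomorphism `M → N` of class `C^∞` with at most one critical
point.

So the smooth classification survives the removal of closed null sets exactly as long as the gauge
function is not small compared to `r²`. In particular, this holds for two-dimensional Hausdorff measure
zero, and nothing is left for Hausdorff dimension at most two (take `m r = r ^ 2 / log (1 / r)`).
No assumption is made on handle decompositions (if there were a polyhedron of dimension two in `N` with
complement `ℝ⁴`, then `N` would have a handle decomposition without 1-handles, which is not known).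

The proof of (1): a closed ball in a cell is contracted off flat discs of dimension two, so balls whose
complements lie in arbitrarily thin neighbourhoods of finitely many images of flat discs and of a
compact set with two-dimensional Hausdorff measure zero exist up to a diffeomorphism (a spine theorem);
the latter set lies in a cell by an engulfing theorem for simply connected 4-manifolds. An increasing
union of such balls is diffeomorphic to `ℝ⁴`.
-/

set_option autoImplicit false

open Set Filter Topology Metric Function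
open scoped Manifold ContDiff ENNReal

noncomputable section

namespace Pool.Agent.Results.MP_cb9bff_gt.GaugeDichotomy

/-- `ℝ⁴` -/
abbrev R4 : Type := EuclideanSpace ℝ (Fin 4)

/-- the 4-sphere: the unit sphere of `ℝ⁵` -/
abbrev S4 : Type := sphere (0 : EuclideanSpace ℝ (Fin 5)) 1

section defs

variable {M N : Type} [TopologicalSpace M] [ChartedSpace R4 M] [TopologicalSpace N]
  [ChartedSpace R4 N]

/-- `f` is a local diffeomorphism (of class `C^∞`) at `x` -/
def LocDiff (f : M → N) (x : M) : Prop := IsLocalDiffeomorphAt (𝓡 4) (𝓡 4) ∞ f x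

/-- the Hausdorff measure of `B` with the gauge function `m` is zero (in the preferred charts) -/
def MeasureZero (m : ℝ≥0∞ → ℝ≥0∞) (B : Set N) : Prop :=
  ∀ x₀ : N, MeasureTheory.Measure.mkMetric m
    (chartAt R4 x₀ '' ((chartAt R4 x₀).source ∩ B) : Set R4) = 0

/-- `c` is a diffeomorphism of `ℝ⁴` with an open subset of `N` -/
def IsOpenCell (c : R4 → N) : Prop := Injective c ∧ ∀ z, LocDiff c z

/-- the complement of the closed set `Z` is diffeomorphic to `ℝ⁴` -/
def ComplementIsR4 (Z : Set N) : Prop := IsClosed Z ∧ ∃ c : R4 → N, IsOpenCell c ∧ range c = Zᶜ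

/-- the restriction of `i` to the complement of the closed subset `Z` of `N` is a diffeomorphism with
an open subset of `M` -/
def EmbedsOff (i : N → M) (Z : Set N) : Prop :=
  IsClosed Z ∧ InjOn i Zᶜ ∧ ∀ y, y ∉ Z → LocDiff i y

/-- `φ` restricts to a diffeomorphism of the complement of the closed subset `Z'` of `M` with the
complement of the closed subset `Z` of `N` -/
def IsDiffeoOff (φ : M → N) (Z' : Set M) (Z : Set N) : Prop :=
  EmbedsOff φ Z' ∧ IsClosed Z ∧ φ '' Z'ᶜ = Zᶜ

end defs

/-- `P` is a closed connected smooth 4-manifold -/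
structure IsClosedManifold (P : Type) [TopologicalSpace P] [ChartedSpace R4 P] : Prop where
  compact : CompactSpace P
  hausdorff : T2Space P
  connected : ConnectedSpace P
  smooth : IsManifold (𝓡 4) ∞ P

/-- `c` is a smooth embedding of the open ball of radius two -/
def IsDisc {N : Type} [TopologicalSpace N] [ChartedSpace R4 N] (c : R4 → N) : Prop :=
  InjOn c (ball 0 2) ∧ ∀ z ∈ ball (0 : R4) 2, LocDiff c z

section sums

variable (M N : Type) [TopologicalSpace M] [ChartedSpace R4 M] [TopologicalSpace N]
  [ChartedSpace R4 N]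

/-- `M` is (diffeomorphic to) a connected sum of `N` and `P`: there are smooth embeddings `p`, `q`
of the open ball of radius two in `N`, `P` such that `M` is the union of open subsets which are
diffeomorphic, by `i` and `j`, to the complements of the images of the closed ball of radius `1/2`,
where the points `p z` and `q (z / |z|²)`, with `1/2 < |z| < 2`, and no others, are identified. -/
def IsConnSum (P : Type) [TopologicalSpace P] [ChartedSpace R4 P] : Prop :=
  ∃ (p : R4 → N) (q : R4 → P) (i : N → M) (j : P → M), IsDisc p ∧ IsDisc q ∧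
    InjOn i (p '' closedBall 0 (1 / 2))ᶜ ∧ (∀ y ∈ (p '' closedBall 0 (1 / 2))ᶜ, LocDiff i y) ∧
    InjOn j (q '' closedBall 0 (1 / 2))ᶜ ∧ (∀ y ∈ (q '' closedBall 0 (1 / 2))ᶜ, LocDiff j y) ∧
    i '' (p '' closedBall 0 (1 / 2))ᶜ ∪ j '' (q '' closedBall 0 (1 / 2))ᶜ = univ ∧
    ∀ y ∈ (p '' closedBall 0 (1 / 2))ᶜ, ∀ s ∈ (q '' closedBall 0 (1 / 2))ᶜ, i y = j s ↔
      ∃ z : R4, 1 / 2 < ‖z‖ ∧ ‖z‖ < 2 ∧ y = p z ∧ s = q ((‖z‖ ^ 2)⁻¹ • z)

/-- `P` is invertible: some connected sum of `P` with a closed connected smooth 4-manifold is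
diffeomorphic to the 4-sphere -/
def IsInvertible (P : Type) [TopologicalSpace P] [ChartedSpace R4 P] : Prop :=
  ∃ (P' : Type) (_ : TopologicalSpace P') (_ : ChartedSpace R4 P'), IsClosedManifold P' ∧
    IsConnSum S4 P P'

/-- the complement of some point of `P` is diffeomorphic to `ℝ⁴` -/
def PuncturedIsR4 (P : Type) [TopologicalSpace P] [ChartedSpace R4 P] : Prop :=
  ∃ (x : P) (c : R4 → P), IsOpenCell c ∧ range c = {x}ᶜ

/-- `M` is a connected sum of `N` and a closed connected smooth 4-manifold with the property `Q` -/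
def SumWith (Q : ∀ (P : Type) [TopologicalSpace P] [ChartedSpace R4 P], Prop) : Prop :=
  ∃ (P : Type) (_ : TopologicalSpace P) (_ : ChartedSpace R4 P), IsClosedManifold P ∧
    IsConnSum M N P ∧ Q P

/-- the complement of some closed `H^m`-null subset of `N` is diffeomorphic to an open subset
of `M` -/
def EmbedsOffNullSet (m : ℝ≥0∞ → ℝ≥0∞) : Prop :=
  ∃ (Z : Set N) (i : N → M), MeasureZero m Z ∧ EmbedsOff i Z

/-- some closed `H^m`-null subsets of `M` and `N` have diffeomorphic complements -/
def DiffeoOffNullSets (m : ℝ≥0∞ → ℝ≥0∞) : Prop :=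
  ∃ (Z' : Set M) (Z : Set N) (φ : M → N), MeasureZero m Z' ∧ MeasureZero m Z ∧
    IsDiffeoOff φ Z' Z

/-- there are a point of `M` and a point of `N` which have diffeomorphic complements -/
def DiffeoOffPoints : Prop := ∃ (x : M) (y : N) (φ : M → N), IsDiffeoOff φ {x} {y}

/-- there is a homeomorphism `M → N` of class `C^∞` with at most one critical point -/
def OneCriticalPoint : Prop :=
  ∃ f : M ≃ₜ N, ContMDiff (𝓡 4) (𝓡 4) ∞ f ∧ ∃ x₀ : M, ∀ x, x ≠ x₀ → LocDiff f x

end sums

section aux

open Pool.Agent.L0h29.EN Pool.Agent.L0h29.CS Pool.Agent.L0h29.SP Pool.Agent.N550.KH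

variable {M N : Type} [TopologicalSpace M] [ChartedSpace R4 M] [TopologicalSpace N]
  [ChartedSpace R4 N]

theorem point_null {m : ℝ≥0∞ → ℝ≥0∞} (hm : m 0 = 0) (x : R4) :
    MeasureTheory.Measure.mkMetric m ({x} : Set R4) = 0 := by
  have h := MeasureTheory.Measure.mkMetric_le_liminf_sum (X := R4) (β := ℕ) (ι := fun _ => Unit)
    {x} (l := atTop) (fun _ => 0) tendsto_const_nhds (fun _ _ => {x})
    (Eventually.of_forall fun n i => by rw [Metric.ediam_singleton])
    (Eventually.of_forall fun n z hz => mem_iUnion.2 ⟨(), hz⟩) m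
  refine le_antisymm (h.trans ?_) bot_le
  simp [hm]

theorem measureZero_single {m : ℝ≥0∞ → ℝ≥0∞} (hm : m 0 = 0) (y : N) :
    MeasureZero m ({y} : Set N) := by
  intro x₀
  have h1 : (chartAt R4 x₀ '' ((chartAt R4 x₀).source ∩ {y})).Subsingleton := by
    rintro _ ⟨a, ⟨-, ha⟩, rfl⟩ _ ⟨b, ⟨-, hb⟩, rfl⟩
    rw [mem_singleton_iff] at ha hb
    rw [ha, hb]
  rcases h1.eq_empty_or_singleton with h2 | ⟨x, h2⟩
  · rw [h2]; exact MeasureTheory.measure_empty
  · rw [h2]; exact point_null hm x

theorem nullH2 [IsManifold (𝓡 4) ∞ N] {m : ℝ≥0∞ → ℝ≥0∞}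
    (h : 0 < liminf (fun r => m r / r ^ 2) (𝓝[>] (0 : ℝ≥0∞))) {Z : Set N} (hZ : MeasureZero m Z) :
    NullH2 4 Z := NullC2.nullH2 fun x₀ => null_two h.ne' (hZ x₀)

theorem dfOff {φ : M → N} {Z' : Set M} {Z : Set N} (h : IsDiffeoOff φ Z' Z) : DfOff φ Z' Z :=
  ⟨h.1.1, h.2.1, h.1.2.1, h.1.2.2, h.2.2⟩

/-- maps between cells -/
theorem embeds_of_cells {c' : R4 → M} {c : R4 → N} (hc' : IsOpenCell c') (hc : IsOpenCell c) :
    EmbedsOff (fun x => c (invFun c' x)) (range c')ᶜ := by
  have h1 : Cell c' := hc'
  have h2 : Cell c := hc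
  refine ⟨h1.isOpen.isClosed_compl, ?_, ?_⟩
  · intro x hx y hy hxy
    rw [compl_compl] at hx hy
    obtain ⟨z, rfl⟩ := hx
    obtain ⟨w, rfl⟩ := hy
    have h3 : c (invFun c' (c' z)) = c (invFun c' (c' w)) := hxy
    rw [h1.inv, h1.inv] at h3
    rw [h2.1 h3]
  · intro x hx
    rw [notMem_compl_iff] at hx
    exact Pool.Agent.Y522.LD.comp_fun (g := c) (f := invFun c') (h2.2 _) (h1.inv_ld hx)

theorem diffeo_of_cells {c' : R4 → M} {c : R4 → N} (hc' : IsOpenCell c') (hc : IsOpenCell c) :
    IsDiffeoOff (fun x => c (invFun c' x)) (range c')ᶜ (range c)ᶜ := by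
  have h1 : Cell c' := hc'
  have h2 : Cell c := hc
  refine ⟨embeds_of_cells hc' hc, h2.isOpen.isClosed_compl, ?_⟩
  rw [compl_compl, compl_compl]
  ext y
  constructor
  · rintro ⟨x, -, rfl⟩
    exact ⟨_, rfl⟩
  · rintro ⟨z, rfl⟩
    refine ⟨c' z, ⟨z, rfl⟩, ?_⟩
    show c (invFun c' (c' z)) = c z
    rw [h1.inv]

end aux

open Pool.Agent.L0h29.EN Pool.Agent.L0h29.CS Pool.Agent.L0h29.SP

/-- **The theorem.** Let `m : [0, ∞] → [0, ∞]` be a function with `m 0 = 0`, and let `M`, `N` be closed
connected smooth 4-manifolds, where `N` is simply connected.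

(1) Suppose that `liminf m r / r ^ 2 = 0` for `r → 0`. Then the complement of some closed `H^m`-null
subset of `N` is diffeomorphic to `ℝ⁴`. So it is diffeomorphic to an open subset of `M`, and if `M` is
simply connected, then `M` and `N` have diffeomorphic complements of closed `H^m`-null subsets.

(2) Suppose that `liminf m r / r ^ 2 > 0` for `r → 0`. Then the complement of some closed `H^m`-null
subset of `N` is diffeomorphic to an open subset of `M` if and only if `M` is a connected sum of `N`
and a closed connected smooth 4-manifold. If `M` is simply connected, then the following conditions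
are equivalent: some closed `H^m`-null subsets of `M` and `N` have diffeomorphic complements; some
points of `M` and `N` have diffeomorphic complements; `M` is a connected sum of `N` and an invertible
closed 4-manifold; `M` is a connected sum of `N` and a closed 4-manifold in which the complement of
some point is diffeomorphic to `ℝ⁴`; there is a homeomorphism `M → N` of class `C^∞` with at most one
critical point. -/
theorem result (m : ℝ≥0∞ → ℝ≥0∞) (hm : m 0 = 0) (M N : Type) [TopologicalSpace M]
    [ChartedSpace R4 M] [TopologicalSpace N] [ChartedSpace R4 N] (hM : IsClosedManifold M)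
    (hN : IsClosedManifold N) (hNs : SimplyConnectedSpace N) :
    (liminf (fun r => m r / r ^ 2) (𝓝[>] (0 : ℝ≥0∞)) = 0 →
      (∃ Z : Set N, MeasureZero m Z ∧ ComplementIsR4 Z) ∧ EmbedsOffNullSet M N m ∧
      (SimplyConnectedSpace M → DiffeoOffNullSets M N m)) ∧
    (0 < liminf (fun r => m r / r ^ 2) (𝓝[>] (0 : ℝ≥0∞)) →
      (EmbedsOffNullSet M N m ↔ SumWith M N fun _ _ _ => True) ∧
      (SimplyConnectedSpace M →
        [DiffeoOffNullSets M N m, DiffeoOffPoints M N, SumWith M N fun P _ _ => IsInvertible P,
          SumWith M N fun P _ _ => PuncturedIsR4 P, OneCriticalPoint M N].TFAE)) := by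
  have := hM.compact
  have := hM.hausdorff
  have := hM.connected
  have := hM.smooth
  have := hN.compact
  have := hN.hausdorff
  have := hN.connected
  have := hN.smooth
  refine ⟨fun hl => ?_, fun hl => ⟨?_, ?_⟩⟩
  · obtain ⟨c, hc, hcZ⟩ := cell_null_compl (N := N) (sq_of_liminf hl)
    refine ⟨⟨(range c)ᶜ, hcZ, hc.isOpen.isClosed_compl, c, hc, (compl_compl _).symm⟩, ?_, ?_⟩
    · obtain ⟨x⟩ : Nonempty M := inferInstance
      obtain ⟨d, hd1, hd2, -⟩ := Pool.Agent.N550.TS.Flm.exists_cell0 (n := 4) x
      exact ⟨(range c)ᶜ, _, hcZ, embeds_of_cells (c := d) hc ⟨hd1, hd2⟩⟩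
    · intro hMs
      obtain ⟨c', hc', hcZ'⟩ := cell_null_compl (N := M) (sq_of_liminf hl)
      exact ⟨(range c')ᶜ, (range c)ᶜ, _, hcZ', hcZ, diffeo_of_cells hc' hc⟩
  · constructor
    · rintro ⟨Z, i, hZn, hZ, hi, hl'⟩
      obtain ⟨P, tP, cP, h1, h2, h3, h4, h5⟩ := sum_of_emb hZ (nullH2 hl hZn) hi hl'
      exact ⟨P, tP, cP, ⟨h1, h2, h3, h4⟩, h5, trivial⟩
    · rintro ⟨P, tP, cP, hP, hs, -⟩
      obtain ⟨y₀, i, hi, hl'⟩ := emb_of_sum hs
      exact ⟨{y₀}, i, measureZero_single hm y₀, isClosed_singleton, hi, hl'⟩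
  · intro hMs
    have key : ∀ (G : M ≃ₜ N) (x₀ : M), (∀ x, x ≠ x₀ → Pool.Agent.Y522.LD 4 G x) →
        IsDiffeoOff G {x₀} {G x₀} := by
      intro G x₀ hG
      refine ⟨⟨isClosed_singleton, G.injective.injOn, fun x hx => hG x hx⟩, isClosed_singleton, ?_⟩
      rw [image_compl_eq G.bijective, image_singleton]
    tfae_have 2 → 1 := by
      rintro ⟨x, y, φ, h⟩
      exact ⟨{x}, {y}, φ, measureZero_single hm x, measureZero_single hm y, h⟩
    tfae_have 1 → 3 := by
      rintro ⟨Z', Z, φ, hZ', hZ, h⟩
      obtain ⟨G, x₀, hG⟩ := (dfOff h).homeo (nullH2 hl hZ') (nullH2 hl hZ)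
      obtain ⟨P, tP, cP, h1, h2, h3, h4, h5, P', tP', cP', h1', h2', h3', h4', h5'⟩ :=
        exists_inv_summand G x₀ hG
      exact ⟨P, tP, cP, ⟨h1, h2, h3, h4⟩, h5, P', tP', cP', ⟨h1', h2', h3', h4'⟩, h5'⟩
    tfae_have 3 → 4 := by
      rintro ⟨P, tP, cP, hP, hs, P', tP', cP', hP', hs'⟩
      have := hP.compact
      have := hP.hausdorff
      have := hP.connected
      have := hP.smooth
      have := hP'.compact
      have := hP'.hausdorff
      have := hP'.smooth
      obtain ⟨x⟩ : Nonempty P := hP.connected.toNonempty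
      obtain ⟨b, hb, hbr⟩ := (PE.of_inv (P := P) (P' := P') hs').cell x
      exact ⟨P, tP, cP, hP, hs, x, b, hb, hbr⟩
    tfae_have 4 → 5 := by
      rintro ⟨P, tP, cP, hP, hs, x, b, hb, hbr⟩
      have := hP.compact
      have := hP.hausdorff
      have := hP.connected
      have := hP.smooth
      obtain ⟨G, x₀, hG⟩ := homeo_of_PE (M := M) (N := N) (P := P) hs (PE.of_cell hb hbr)
      obtain ⟨f, hf, hfl⟩ := flat 4 M N G x₀ hG
      exact ⟨f, hf, x₀, hfl⟩
    tfae_have 5 → 2 := by
      rintro ⟨f, -, x₀, hf⟩
      exact ⟨x₀, f x₀, f, key f x₀ hf⟩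
    tfae_finish

end Pool.Agent.Results.MP_cb9bff_gt.GaugeDichotomy
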