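import Pool.Agent.L0h29.SP.Homeo
import Pool.Agent.L0h29.BL.Cv
import Pool.Agent.L0h29.EN.Rec
import Pool.Agent.L0h29.EN.Flat

/-!
# Smooth homeomorphisms of closed simply connected 4-manifolds

Let `M`, `N` be closed connected smooth 4-manifolds, where `N` is simply connected. The following
conditions are equivalent:

* there is a homeomorphism `M → N` of class `C^∞` (with no condition on the rank of its derivative or
  on its inverse);
* there is a homeomorphism `M → N` which is of class `C^∞` near all points off a set whose image has
  one-dimensional Hausdorff measure zero;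
* there is a bi-Lipschitz homeomorphism `M → N` which is a local diffeomorphism at all points but
  one, and which is differentiable with invertible derivative at this point too;
* there is a homeomorphism `N → M` of class `C^∞`;
* `M` is diffeomorphic to a connected sum of `N` and a closed 4-manifold `P` which is invertible
  (some connected sum of `P` with a closed 4-manifold is diffeomorphic to the 4-sphere).

So the closed simply connected smooth 4-manifolds which are related by homeomorphisms of class `C^∞`
differ by sums with invertible homotopy 4-spheres only (these are the doubles of the Schoenflies balls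
with a ball; none is known to be different from the 4-sphere). No assumption is made on handle
decompositions.

The proof: the critical points of a homeomorphism of class `C^∞` are removed over a neighbourhood of a
2-dimensional flat disc in a chart, up to a diffeomorphism of `N`, by induction on the dimension of
the disc and on the rank. Finitely many such steps, in finitely many charts, move the critical values
close to a compact set with two-dimensional Hausdorff measure zero. This set lies in an open cell
since `N` is simply connected (a smooth form of Stallings' engulfing theorem). The preimage of the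
cell is diffeomorphic to `ℝ⁴` since it is exhausted by balls, and the homeomorphism can be changed
over the cell such that it has only one singular point.

The singular point is improved as follows. By an inversion it becomes the point at infinity, and by a
modification near a regular point the homeomorphism is, up to a diffeomorphism, the restriction of a
homeomorphism with compact support with two singular points, with opposite germs. Infinitely many
rescaled copies of it and of its inverse, with disjoint supports along a segment, are arranged such
that the singular points cancel in pairs (an Eilenberg-Mazur swindle), except for the first one and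
for the limit point. The copies are arranged such that their diameters are small with respect to
their distances to the limit point, and there are only finitely many patterns up to similarity; so
the limit point is a point of differentiability, and the homeomorphism is bi-Lipschitz near it.
-/

set_option autoImplicit false

open Set Filter Topology Metric Function
open scoped Manifold ContDiff

noncomputable section

namespace Pool.Agent.Results.MP_cb9bff_gt.HomeosOfClassCInfinity

/-- `ℝ⁴` -/
abbrev R4 : Type := EuclideanSpace ℝ (Fin 4)

/-- the 4-sphere: the unit sphere of `ℝ⁵` -/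
abbrev S4 : Type := sphere (0 : EuclideanSpace ℝ (Fin 5)) 1

section defs

variable {M N : Type} [TopologicalSpace M] [ChartedSpace R4 M] [TopologicalSpace N]
  [ChartedSpace R4 N]

/-- `f` is of class `C^∞` near `x` (no condition is imposed on the derivative) -/
def SmoothNear (f : M → N) (x : M) : Prop := ∀ᶠ y in 𝓝 x, ContMDiffAt (𝓡 4) (𝓡 4) ∞ f y

/-- `f` is of class `C^∞` (no condition is imposed on the derivative) -/
def SmoothEverywhere (f : M → N) : Prop := ContMDiff (𝓡 4) (𝓡 4) ∞ f

/-- `f` is a local diffeomorphism (of class `C^∞`) at `x` -/
def LocDiff (f : M → N) (x : M) : Prop := IsLocalDiffeomorphAt (𝓡 4) (𝓡 4) ∞ f x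

/-- `G` is a local diffeomorphism at all points but one -/
def LocDiffOffPoint (G : M → N) : Prop := ∃ x₀ : M, ∀ x, x ≠ x₀ → LocDiff G x

/-- `f` in the preferred charts at `x` and at `f x` -/
def inCharts (f : M → N) (x : M) : R4 → R4 :=
  fun y => chartAt R4 (f x) (f ((chartAt R4 x).symm y))

/-- `f` is differentiable at `x` with invertible derivative (`f` is written in the preferred charts
at `x` and at `f x`) -/
def InvertibleDeriv (f : M → N) (x : M) : Prop :=
  ∃ A : R4 ≃L[ℝ] R4, HasFDerivAt (inCharts f x) (A : R4 →L[ℝ] R4) (chartAt R4 x x)

/-- the distance of `y` and `y'` in the preferred chart at `x` (for `y` and `y'` near `x`) -/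
def chartDist (x y y' : M) : ℝ := dist (chartAt R4 x y) (chartAt R4 x y')

/-- `f` is bi-Lipschitz near `x` (in the preferred charts at `x` and at `f x`) -/
def BiLipschitzNear (f : M → N) (x : M) : Prop :=
  ∃ C : ℝ, ∀ᶠ p : M × M in 𝓝 (x, x),
    chartDist (f x) (f p.1) (f p.2) ≤ C * chartDist x p.1 p.2 ∧
      chartDist x p.1 p.2 ≤ C * chartDist (f x) (f p.1) (f p.2)

/-- `G` is, at all points, bi-Lipschitz and differentiable with invertible derivative -/
def BiLipschitzWithInvertibleDeriv (G : M → N) : Prop :=
  ∀ x, InvertibleDeriv G x ∧ BiLipschitzNear G x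

/-- a set with one-dimensional Hausdorff measure zero (in the preferred charts) -/
def LengthZero (B : Set N) : Prop :=
  ∀ x₀ : N, MeasureTheory.Measure.hausdorffMeasure 1
    (chartAt R4 x₀ '' ((chartAt R4 x₀).source ∩ B) : Set R4) = 0

end defs

/-- `P` is a closed connected smooth 4-manifold -/
structure IsClosedManifold (P : Type) [TopologicalSpace P] [ChartedSpace R4 P] : Prop where
  compact : CompactSpace P
  hausdorff : T2Space P
  connected : ConnectedSpace P
  smooth : IsManifold (𝓡 4) ∞ P

/-- `c` is a smooth embedding of the open ball of radius two -/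
def IsDisc {N : Type} [TopologicalSpace N] [ChartedSpace R4 N] (c : R4 → N) : Prop :=
  InjOn c (ball 0 2) ∧ ∀ z ∈ ball (0 : R4) 2, LocDiff c z

section sums

variable (M N : Type) [TopologicalSpace M] [ChartedSpace R4 M] [TopologicalSpace N]
  [ChartedSpace R4 N]

/-- `M` is (diffeomorphic to) a connected sum of `N` and `P`: there are smooth embeddings `p`, `q`
of the open ball of radius two in `N`, `P` such that `M` is the union of open subsets which are
diffeomorphic, by `i` and `j`, to the complements of the images of the closed ball of radius `1/2`,
where the points `p z` and `q (z / |z|²)`, with `1/2 < |z| < 2`, and no others, are identified. -/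
def IsConnSum (P : Type) [TopologicalSpace P] [ChartedSpace R4 P] : Prop :=
  ∃ (p : R4 → N) (q : R4 → P) (i : N → M) (j : P → M), IsDisc p ∧ IsDisc q ∧
    InjOn i (p '' closedBall 0 (1 / 2))ᶜ ∧ (∀ y ∈ (p '' closedBall 0 (1 / 2))ᶜ, LocDiff i y) ∧
    InjOn j (q '' closedBall 0 (1 / 2))ᶜ ∧ (∀ y ∈ (q '' closedBall 0 (1 / 2))ᶜ, LocDiff j y) ∧
    i '' (p '' closedBall 0 (1 / 2))ᶜ ∪ j '' (q '' closedBall 0 (1 / 2))ᶜ = univ ∧
    ∀ y ∈ (p '' closedBall 0 (1 / 2))ᶜ, ∀ s ∈ (q '' closedBall 0 (1 / 2))ᶜ, i y = j s ↔
      ∃ z : R4, 1 / 2 < ‖z‖ ∧ ‖z‖ < 2 ∧ y = p z ∧ s = q ((‖z‖ ^ 2)⁻¹ • z)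

/-- `P` is invertible: some connected sum of `P` with a closed connected smooth 4-manifold is
diffeomorphic to the 4-sphere -/
def IsInvertible (P : Type) [TopologicalSpace P] [ChartedSpace R4 P] : Prop :=
  ∃ (P' : Type) (_ : TopologicalSpace P') (_ : ChartedSpace R4 P'), IsClosedManifold P' ∧
    IsConnSum S4 P P'

/-- `M` is a connected sum of `N` and an invertible closed connected smooth 4-manifold -/
def SumWithInvertible : Prop :=
  ∃ (P : Type) (_ : TopologicalSpace P) (_ : ChartedSpace R4 P), IsClosedManifold P ∧
    IsConnSum M N P ∧ IsInvertible P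

/-- there is a homeomorphism `M → N` of class `C^∞` -/
def SmoothHomeo : Prop := ∃ f : M ≃ₜ N, SmoothEverywhere f

/-- there is a homeomorphism `M → N` which is of class `C^∞` near all points off a set whose image
has one-dimensional Hausdorff measure zero -/
def AlmostSmoothHomeo : Prop := ∃ f : M ≃ₜ N, LengthZero (f '' {x | ¬ SmoothNear f x})

/-- there is a homeomorphism `M → N` which is a local diffeomorphism at all points but one and which
is, at all points, bi-Lipschitz and differentiable with invertible derivative -/
def FineHomeo : Prop := ∃ G : M ≃ₜ N, LocDiffOffPoint G ∧ BiLipschitzWithInvertibleDeriv G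

end sums

theorem lip_of {M N : Type} [TopologicalSpace M] [ChartedSpace R4 M] [TopologicalSpace N]
    [ChartedSpace R4 N] {f : M → N} {x : M} (h : Pool.Agent.L0h29.BL.NiceM f x) :
    BiLipschitzNear f x := by
  obtain ⟨C, hC⟩ := h.lip
  refine ⟨C, ?_⟩
  filter_upwards [hC] with p hp
  simp only [chartDist, dist_eq_norm]
  exact hp

theorem null_of_smooth {M N : Type} [TopologicalSpace M] [ChartedSpace R4 M] [TopologicalSpace N]
    [ChartedSpace R4 N] (f : M → N) (hf : SmoothEverywhere f) :
    LengthZero (f '' {x | ¬ SmoothNear f x}) := by
  intro y₀
  have h1 : {x | ¬ SmoothNear f x} = ∅ := by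
    ext x
    simp only [mem_ofPred_eq, mem_empty_iff_false, iff_false, not_not]
    exact Eventually.of_forall fun y => hf y
  rw [h1]
  simp

/-- the inverse of a homeomorphism is a local diffeomorphism where the homeomorphism is one -/
theorem symm_ld {M N : Type} [TopologicalSpace M] [ChartedSpace R4 M] [TopologicalSpace N]
    [ChartedSpace R4 N] (G : M ≃ₜ N) {x : M} (h : LocDiff G x) : LocDiff G.symm (G x) := by
  have h' : Pool.Agent.Y522.LD 4 G x := h
  obtain ⟨U, hU, hUo, hxU⟩ := _root_.eventually_nhds_iff.1 h'.eventually
  exact Pool.Agent.Y522.LD.inverse hUo hU (fun y _ => G.symm_apply_apply y) hxU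

open Pool.Agent.L0h29.EN in
/-- **The theorem.** Let `M`, `N` be closed connected smooth 4-manifolds, where `N` is simply
connected. The following conditions are equivalent: there is a homeomorphism `M → N` of class `C^∞`;
there is one which is of class `C^∞` near all points off a set whose image has one-dimensional
Hausdorff measure zero; there is one which is a local diffeomorphism at all points but one and which
is, at all points, bi-Lipschitz and differentiable with invertible derivative; there is a
homeomorphism `N → M` of class `C^∞`; `M` is a connected sum of `N` and an invertible closed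
4-manifold. -/
theorem result (M N : Type) [TopologicalSpace M] [ChartedSpace R4 M] [TopologicalSpace N]
    [ChartedSpace R4 N] (hM : IsClosedManifold M) (hN : IsClosedManifold N)
    (hNs : SimplyConnectedSpace N) :
    [SmoothHomeo M N, AlmostSmoothHomeo M N, FineHomeo M N, SmoothHomeo N M,
      SumWithInvertible M N].TFAE := by
  have := hM.compact
  have := hM.hausdorff
  have := hM.connected
  have := hM.smooth
  have := hN.compact
  have := hN.hausdorff
  have := hN.connected
  have := hN.smooth
  tfae_have 1 → 2 := fun ⟨f, hf⟩ => ⟨f, null_of_smooth f hf⟩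
  tfae_have 2 → 3 := by
    rintro ⟨f, hf⟩
    obtain ⟨G, x₀, hG⟩ := Pool.Agent.L0h29.SP.fin3 M N f hf
    obtain ⟨G', z, -, -, h5, h6⟩ := Pool.Agent.L0h29.BL.one_point G {x₀} (finite_singleton x₀)
      (fun x hx => hG x hx) x₀ univ univ_mem (fun x _ hx => hx)
    have hz : ∀ x, x ≠ z → Pool.Agent.Y522.LD 4 G' x := fun x hx => h5 x hx fun h => h
    have hn : ∀ x, Pool.Agent.L0h29.BL.NiceM G' x := by
      intro x
      by_cases hx : x = z
      · rw [hx]
        exact h6
      · exact Pool.Agent.L0h29.BL.niceM_of_ld (hz x hx)
    exact ⟨G', ⟨z, hz⟩, fun x => ⟨(hn x).1, lip_of (hn x)⟩⟩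
  tfae_have 3 → 1 := by
    rintro ⟨G, ⟨x₀, hG⟩, -⟩
    exact Pool.Agent.N550.TS.flm 4 M N G x₀ hG
  tfae_have 3 → 4 := by
    rintro ⟨G, ⟨x₀, hG⟩, -⟩
    refine Pool.Agent.N550.TS.flm 4 N M G.symm (G x₀) fun y hy => ?_
    have h1 : G.symm y ≠ x₀ := fun h => hy (by rw [← h, G.apply_symm_apply])
    have h2 := symm_ld G (hG _ h1)
    rwa [G.apply_symm_apply] at h2
  tfae_have 4 → 5 := by
    rintro ⟨f, hf⟩
    have hMs : SimplyConnectedSpace M := f.symm.toHomotopyEquiv.simplyConnectedSpace
    obtain ⟨G, x₀, hG⟩ := Pool.Agent.L0h29.SP.fin3 N M f (null_of_smooth f hf)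
    obtain ⟨P, tP, cP, h1, h2, h3, h4, h5, P', tP', cP', h1', h2', h3', h4', h5'⟩ :=
      exists_inv_summand G.symm (G x₀) fun y hy => by
        have h1 : G.symm y ≠ x₀ := fun h => hy (by rw [← h, G.apply_symm_apply])
        have h2 := symm_ld G (hG _ h1)
        rwa [G.apply_symm_apply] at h2
    exact ⟨P, tP, cP, ⟨h1, h2, h3, h4⟩, h5, P', tP', cP', ⟨h1', h2', h3', h4'⟩, h5'⟩
  tfae_have 5 → 1 := by
    rintro ⟨P, tP, cP, hP, hs, P', tP', cP', hP', hs'⟩
    have := hP.compact
    have := hP.hausdorff
    have := hP.connected
    have := hP.smooth
    have := hP'.compact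
    have := hP'.hausdorff
    have := hP'.smooth
    obtain ⟨G, x₀, hG⟩ := homeo_of_PE (M := M) (N := N) (P := P) hs
      (PE.of_inv (P := P) (P' := P') hs')
    exact Pool.Agent.N550.TS.flm 4 M N G x₀ hG
  tfae_finish

end Pool.Agent.Results.MP_cb9bff_gt.HomeosOfClassCInfinity
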