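import Pool.Agent.L0h29.SP.Norm2
import Pool.Agent.L0h29.RG.Sheets
import Pool.Agent.L0h29.RG.Join

/-!
# Maps onto simply connected 4-manifolds whose critical points have rank at most one

Let `N` be a closed simply connected smooth 4-manifold, let `M` be a closed connected smooth
4-manifold and let `f : M → N` be a map of class `C^∞` of which all critical points have rank at most
one (so there is no critical point of rank two or three). Then all regular values of `f` have the same
number `k` of preimages, and `M` is diffeomorphic to a connected sum of `k` copies of `N` (with some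
orientations) and a closed smooth 4-manifold `P`. More generally it is enough that `f` is continuous,
and of this kind over the complement of a closed subset `Z` of `N` with two-dimensional Hausdorff
measure zero.

Conversely, if `M` is such a connected sum, then there is a map `M → N` of class `C^∞` for which all
points of `N` but one are regular values with exactly `k` preimages.

No assumption is made on handle decompositions of `N`.

The proof: the set of the critical values is moved off the flat 2-dimensional discs in the charts by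
diffeomorphisms of `N` (a generic translation in the transverse direction misses the critical values
over a disc: if the rank of `f` at a critical point is at most one, then `f` followed by the
projection to the transverse plane is critical there too, and Sard's theorem applies). So it can be
moved close to a compact set with two-dimensional Hausdorff measure zero, which lies in an open cell
since `N` is simply connected (a smooth form of Stallings' engulfing theorem). Over the complement of
a closed ball in the cell, which is simply connected, `f` is a covering with `k` sheets, and these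
split off.
-/

set_option autoImplicit false

open Set Filter Topology Metric Function
open scoped Manifold ContDiff

noncomputable section

namespace Pool.Agent.Results.MP_cb9bff_gt.LowRankCriticalPoints

/-- `ℝ⁴` -/
abbrev R4 : Type := EuclideanSpace ℝ (Fin 4)

section defs

variable {M N : Type} [TopologicalSpace M] [ChartedSpace R4 M] [TopologicalSpace N]
  [ChartedSpace R4 N]

/-- `f` is of class `C^∞` near `x` (no condition is imposed on the derivative) -/
def SmoothNear (f : M → N) (x : M) : Prop := ∀ᶠ y in 𝓝 x, ContMDiffAt (𝓡 4) (𝓡 4) ∞ f y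

/-- `f` is of class `C^∞` (no condition is imposed on the derivative) -/
def SmoothEverywhere (f : M → N) : Prop := ContMDiff (𝓡 4) (𝓡 4) ∞ f

/-- `f` is a local diffeomorphism (of class `C^∞`) at `x` -/
def LocDiff (f : M → N) (x : M) : Prop := IsLocalDiffeomorphAt (𝓡 4) (𝓡 4) ∞ f x

/-- a set with two-dimensional Hausdorff measure zero (in the preferred charts) -/
def AreaZero (B : Set N) : Prop :=
  ∀ x₀ : N, MeasureTheory.Measure.hausdorffMeasure 2
    (chartAt R4 x₀ '' ((chartAt R4 x₀).source ∩ B) : Set R4) = 0

end defs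

/-- `P` is a closed connected smooth 4-manifold -/
structure IsClosedManifold (P : Type) [TopologicalSpace P] [ChartedSpace R4 P] : Prop where
  compact : CompactSpace P
  hausdorff : T2Space P
  connected : ConnectedSpace P
  smooth : IsManifold (𝓡 4) ∞ P

/-- `c` is a smooth embedding of the open ball of radius two -/
def IsDisc {N : Type} [TopologicalSpace N] [ChartedSpace R4 N] (c : R4 → N) : Prop :=
  InjOn c (ball 0 2) ∧ ∀ z ∈ ball (0 : R4) 2, LocDiff c z

/-- `M` is (diffeomorphic to) a connected sum of `N` and `P`: there are smooth embeddings `p`, `q`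
of the open ball of radius two in `N`, `P` such that `M` is the union of open subsets which are
diffeomorphic, by `i` and `j`, to the complements of the images of the closed ball of radius `1/2`,
where the points `p z` and `q (z / |z|²)`, with `1/2 < |z| < 2`, and no others, are identified. -/
def IsConnSum (M N P : Type) [TopologicalSpace M] [ChartedSpace R4 M]
    [TopologicalSpace N] [ChartedSpace R4 N] [TopologicalSpace P] [ChartedSpace R4 P] :
    Prop :=
  ∃ (p : R4 → N) (q : R4 → P) (i : N → M) (j : P → M), IsDisc p ∧ IsDisc q ∧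
    InjOn i (p '' closedBall 0 (1 / 2))ᶜ ∧ (∀ y ∈ (p '' closedBall 0 (1 / 2))ᶜ, LocDiff i y) ∧
    InjOn j (q '' closedBall 0 (1 / 2))ᶜ ∧ (∀ y ∈ (q '' closedBall 0 (1 / 2))ᶜ, LocDiff j y) ∧
    i '' (p '' closedBall 0 (1 / 2))ᶜ ∪ j '' (q '' closedBall 0 (1 / 2))ᶜ = univ ∧
    ∀ y ∈ (p '' closedBall 0 (1 / 2))ᶜ, ∀ s ∈ (q '' closedBall 0 (1 / 2))ᶜ, i y = j s ↔
      ∃ z : R4, 1 / 2 < ‖z‖ ∧ ‖z‖ < 2 ∧ y = p z ∧ s = q ((‖z‖ ^ 2)⁻¹ • z)

/-- `M` is diffeomorphic to a connected sum of `k` copies of `N` and a closed connected smooth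
4-manifold: `M = N # (N # ⋯ (N # P))`, where `N` occurs `k` times. -/
def SplitsOff (N : Type) [TopologicalSpace N] [ChartedSpace R4 N] :
    ℕ → ∀ (M : Type) [TopologicalSpace M] [ChartedSpace R4 M], Prop
  | 0, _, _, _ => True
  | k + 1, M, _, _ => ∃ (M₁ : Type) (_ : TopologicalSpace M₁) (_ : ChartedSpace R4 M₁),
      IsClosedManifold M₁ ∧ IsConnSum M N M₁ ∧ SplitsOff N k M₁

section maps

variable {M N : Type} [TopologicalSpace M] [ChartedSpace R4 M] [TopologicalSpace N]
  [ChartedSpace R4 N]

/-- `f` in the preferred charts at `x` and at `f x` -/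
def inCharts (f : M → N) (x : M) : R4 → R4 :=
  fun y => chartAt R4 (f x) (f ((chartAt R4 x).symm y))

/-- the derivative of `f` at `x` (in the preferred charts at `x` and at `f x`) has rank at most
one: its values are multiples of one vector -/
def RankLeOne (f : M → N) (x : M) : Prop :=
  ∃ v : R4, ∀ w : R4, ∃ t : ℝ, fderiv ℝ (inCharts f x) (chartAt R4 x x) w = t • v

/-- Off the preimage of `Z`, the map `f` is of class `C^∞`, and its critical points there have rank
at most one. (No condition is imposed on `f` at the points which are mapped to `Z`.) -/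
def CriticalRankLeOne (f : M → N) (Z : Set N) : Prop :=
  ∀ x, f x ∉ Z → SmoothNear f x ∧ (LocDiff f x ∨ RankLeOne f x)

/-- `y` is a regular value of `f`, off `Z` -/
def RegularValue (f : M → N) (Z : Set N) (y : N) : Prop := y ∉ Z ∧ ∀ x, f x = y → LocDiff f x

end maps

section flat

open Pool.Agent.L0h29.RG

variable {M N : Type} [TopologicalSpace M] [ChartedSpace R4 M] [TopologicalSpace N]
  [ChartedSpace R4 N]

theorem flat_of_rank {f : M → N} {x : M} (hs : SmoothNear f x) (h : RankLeOne f x) :
    Flat 4 f x := by
  intro k hk g hg hsurj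
  obtain ⟨v, hv⟩ := h
  have hfs : ContMDiffAt (𝓡 4) (𝓡 4) ∞ f x := hs.self_of_nhds
  have hfd : MDifferentiableAt (𝓡 4) (𝓡 4) f x := hfs.mdifferentiableAt (by simp)
  have hgd : MDifferentiableAt (𝓡 4) (𝓡 k) g (f x) := hg.mdifferentiableAt (by simp)
  have h1 : mfderiv (𝓡 4) (𝓡 k) (fun y => g (f y)) x =
      (mfderiv (𝓡 4) (𝓡 k) g (f x)).comp (mfderiv (𝓡 4) (𝓡 4) f x) :=
    mfderiv_comp x hgd hfd
  have h2 : mfderiv (𝓡 4) (𝓡 4) f x = fderiv ℝ (inCharts f x) (chartAt R4 x x) := by
    have h3 : writtenInExtChartAt (𝓡 4) (𝓡 4) x f = inCharts f x := by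
      ext y
      simp [writtenInExtChartAt, extChartAt, inCharts]
    have h4 : range (𝓡 4) = univ := by simp
    rw [hfd.mfderiv, h3, h4, fderivWithin_univ]
    rfl
  -- the values are multiples of one vector
  let u : EuclideanSpace ℝ (Fin k) := (mfderiv (𝓡 4) (𝓡 k) g (f x) : R4 →L[ℝ] EuclideanSpace ℝ (Fin k)) v
  have h5 : ∀ z : EuclideanSpace ℝ (Fin k), ∃ t : ℝ, t • u = z := by
    intro z
    obtain ⟨w, hw⟩ := hsurj z
    obtain ⟨t, ht⟩ := hv w
    refine ⟨t, ?_⟩
    rw [← hw, h1, h2]
    show t • u = (mfderiv (𝓡 4) (𝓡 k) g (f x) : R4 →L[ℝ] EuclideanSpace ℝ (Fin k))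
      (fderiv ℝ (inCharts f x) (chartAt R4 x x) w)
    rw [ht]
    exact (map_smul _ t v).symm
  have h6 : Module.finrank ℝ (EuclideanSpace ℝ (Fin k)) ≤ 1 := finrank_le_one u h5
  rw [finrank_euclideanSpace_fin] at h6
  omega

theorem inw_of {f : M → N} {Z : Set N} [T2Space N] [IsManifold (𝓡 4) ∞ N] (hf : Continuous f)
    (hZ : IsClosed Z) (hZ0 : AreaZero Z) (h : CriticalRankLeOne f Z) : Inw 4 f Z :=
  ⟨hf, hZ, Pool.Agent.L0h29.CS.NullC2.nullH2 hZ0, fun x hx => (h x hx).1, fun x hx =>
    (h x hx).2.imp id (flat_of_rank (h x hx).1)⟩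

omit [TopologicalSpace M] [ChartedSpace R4 M] [TopologicalSpace N] [ChartedSpace R4 N] in
theorem encard_of_cnt {f : M → N} {y : N} {k : ℕ} (hfin : (f ⁻¹' {y}).Finite)
    (h : cnt f y = k) : (f ⁻¹' {y}).encard = k := by
  rw [← hfin.cast_ncard_eq]
  exact congrArg _ h

end flat

open Pool.Agent.L0h29.RG

theorem splits (N : Type) [TopologicalSpace N] [CompactSpace N] [T2Space N] [ChartedSpace R4 N]
    [IsManifold (𝓡 4) ∞ N] (c : R4 → N) (hc : Injective c)
    (hcl : ∀ z, Pool.Agent.Y522.LD 4 c z) (hcr : range c ≠ univ) :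
    ∀ (k : ℕ) (M : Type) [TopologicalSpace M] [ChartedSpace R4 M] [CompactSpace M] [T2Space M]
      [ConnectedSpace M] [IsManifold (𝓡 4) ∞ M], Sheets 4 N (c 0) k M → SplitsOff N k M := by
  intro k
  induction k with
  | zero => intros; trivial
  | succ k ih =>
    intro M _ _ _ _ _ _ h
    obtain ⟨P, tP, cP, h1, h2, h3, h4, h5, h6⟩ := split (n := 4) (by norm_num) k c hc hcl hcr h
    exact ⟨P, tP, cP, ⟨h1, h2, h3, h4⟩, h5, ih P h6⟩

theorem joins (N : Type) [TopologicalSpace N] [CompactSpace N] [T2Space N] [ChartedSpace R4 N]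
    [ConnectedSpace N] [IsManifold (𝓡 4) ∞ N] :
    ∀ (k : ℕ) (M : Type) [TopologicalSpace M] [ChartedSpace R4 M], SplitsOff N k M →
      ∃ (g : M → N) (y₀ : N), NF g y₀ k := by
  intro k
  induction k with
  | zero =>
    intro M _ _ _
    exact ⟨_, _, NF_const (Classical.arbitrary N)⟩
  | succ k ih =>
    intro M _ _ h
    obtain ⟨M₁, t₁, c₁, h1, h2, h3⟩ := h
    obtain ⟨g, y₀, hg⟩ := ih M₁ h3
    have := h1.compact
    have := h1.hausdorff
    have := h1.connected
    have := h1.smooth
    exact join hg h2

/-- **The theorem.** Let `M`, `N` be closed smooth 4-manifolds, where `M` is connected and `N` is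
simply connected.

(1) Let `f : M → N` be continuous and let `Z ⊆ N` be a closed set with two-dimensional Hausdorff
measure zero such that, at the points which are not mapped to `Z`, the map `f` is of class `C^∞` and
its critical points have rank at most one (for example, `Z` is empty, and `f` is of class `C^∞` with
all critical points of rank at most one). Then there is `k` such that every regular value off `Z`
has exactly `k` preimages (and there is such a regular value), and `M` is a connected sum of `k`
copies of `N` and a closed connected smooth 4-manifold.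

(2) Conversely, if `M` is a connected sum of `k` copies of `N` and a closed connected smooth
4-manifold, then there is a map `f : M → N` of class `C^∞` and a point `y₀` of `N` such that all
points different from `y₀` are regular values with exactly `k` preimages. -/
theorem result (M N : Type) [TopologicalSpace M] [CompactSpace M] [T2Space M] [ConnectedSpace M]
    [ChartedSpace R4 M] [IsManifold (𝓡 4) ∞ M] [TopologicalSpace N] [CompactSpace N] [T2Space N]
    [ChartedSpace R4 N] [IsManifold (𝓡 4) ∞ N] [SimplyConnectedSpace N] :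
    (∀ (f : M → N) (Z : Set N), Continuous f → IsClosed Z → AreaZero Z → CriticalRankLeOne f Z →
      ∃ k : ℕ, (∃ y, RegularValue f Z y) ∧
        (∀ y, RegularValue f Z y → (f ⁻¹' {y}).encard = k) ∧ SplitsOff N k M) ∧
    ∀ k : ℕ, SplitsOff N k M →
      ∃ (f : M → N) (y₀ : N), SmoothEverywhere f ∧ (∀ x, f x ≠ y₀ → LocDiff f x) ∧
        ∀ y, y ≠ y₀ → (f ⁻¹' {y}).encard = k := by
  constructor
  · intro f Z hf hZ hZ0 hr
    have hI : Inw 4 f Z := inw_of hf hZ hZ0 hr
    obtain ⟨κ, c, R, hR, hκ, hc, hκR⟩ := Pool.Agent.L0h29.SP.amb2 M N f Z hI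
    obtain ⟨g, k, h1, h2, h3, h4⟩ := Pool.Agent.L0h29.SP.normal2 M N f Z hI κ c R hR hκ hc hκR
    have hcr : range c ≠ univ := Pool.Agent.N550.TS.Fin2.range_ne_univ c hc.1 hc.2
    have hsc := simplyConnected_compl (n := 4) (by norm_num) (openEmb hc.1 hc.2)
    refine ⟨k, ?_, fun y hy => ?_, ?_⟩
    · obtain ⟨y, hy⟩ := (ne_univ_iff_exists_notMem _).1 hcr
      obtain ⟨y', hy', -⟩ := hκR y fun ⟨z, _, hz⟩ => hy ⟨z, hz⟩
      exact ⟨y', hy'⟩
    · exact encard_of_cnt (fiber_finite hf fun x hx => hy.2 x hx) (h4 y hy)
    · have hgc : Continuous g := continuous_iff_continuousAt.2 fun x => (h1 x).continuousAt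
      obtain ⟨y₁, hy₁⟩ := (ne_univ_iff_exists_notMem _).1 hcr
      exact splits N c hc.1 hc.2 hcr k M
        (sheets_of_map hgc h2 h3 ⟨y₁, fun h => hy₁ ⟨0, h.symm⟩⟩)
  · intro k hk
    have : ConnectedSpace N := inferInstance
    obtain ⟨g, y₀, hg⟩ := joins N k M hk
    exact ⟨g, y₀, fun x => hg.sm x, hg.ld, fun y hy => encard_of_cnt
      (fiber_finite hg.cont fun x hx => hg.ld x (by rw [hx]; exact hy)) (hg.ct y hy)⟩

end Pool.Agent.Results.MP_cb9bff_gt.LowRankCriticalPoints
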