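import Pool.Agent.L0h29.SP.Main2
import Pool.Agent.L0h29.CS.Conv

/-!
# Maps onto closed simply connected 4-manifolds with one preimage off a small set

Let `N` be a closed simply connected smooth 4-manifold, let `M` be a closed connected smooth
4-manifold, and let `f : M → N` be a continuous map. Suppose that there is a closed subset `Z` of `N`
with two-dimensional Hausdorff measure zero such that every point `y` of `N` off `Z` has exactly one
preimage under `f`, and `f` is of class `C^∞` near this preimage (no condition is imposed on the rank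
of the derivative of `f`, and there is no condition on `f` over `Z`). Then `M` is diffeomorphic to a
connected sum of `N` and a closed smooth 4-manifold `P`. If `f` is moreover injective (so `f` is a
homeomorphism, of class `C^∞` off a set whose image has two-dimensional Hausdorff measure zero), then
`P` is homeomorphic to the 4-sphere.

Conversely, if `M` is a connected sum of `N` and `P`, then there is a map `M → N` of class `C^∞` for
which all points of `N` but one have exactly one preimage.

No assumption is made on handle decompositions of `N`.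

The proof: the critical points are removed over a neighbourhood of a 2-dimensional flat disc in a
chart, up to a diffeomorphism of `N`, by induction on the dimension of the disc and on the rank.
Finitely many such steps, in finitely many charts, move `Z` and the critical values close to a compact
set with two-dimensional Hausdorff measure zero. This set lies in an open cell since `N` is simply
connected (a smooth form of Stallings' engulfing theorem). So `f` becomes a diffeomorphism over the
complement of a closed ball in an open cell, and `P` is the preimage of the cell, with one point added.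
-/

set_option autoImplicit false

open Set Filter Topology Metric Function
open scoped Manifold ContDiff

noncomputable section

namespace Pool.Agent.Results.MP_cb9bff_gt.MapsWithOnePreimage

/-- `ℝ⁴` -/
abbrev R4 : Type := EuclideanSpace ℝ (Fin 4)

/-- the 4-sphere: the unit sphere of `ℝ⁵` -/
abbrev S4 : Type := sphere (0 : EuclideanSpace ℝ (Fin 5)) 1

section defs

variable {M N : Type} [TopologicalSpace M] [ChartedSpace R4 M] [TopologicalSpace N]
  [ChartedSpace R4 N]

/-- `f` is of class `C^∞` near `x` (no condition is imposed on the derivative) -/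
def SmoothNear (f : M → N) (x : M) : Prop := ∀ᶠ y in 𝓝 x, ContMDiffAt (𝓡 4) (𝓡 4) ∞ f y

/-- `f` is of class `C^∞` (no condition is imposed on the derivative) -/
def SmoothEverywhere (f : M → N) : Prop := ContMDiff (𝓡 4) (𝓡 4) ∞ f

/-- `f` is a local diffeomorphism (of class `C^∞`) at `x` -/
def LocDiff (f : M → N) (x : M) : Prop := IsLocalDiffeomorphAt (𝓡 4) (𝓡 4) ∞ f x

/-- a set with two-dimensional Hausdorff measure zero (in the preferred charts) -/
def AreaZero (B : Set N) : Prop :=
  ∀ x₀ : N, MeasureTheory.Measure.hausdorffMeasure 2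
    (chartAt R4 x₀ '' ((chartAt R4 x₀).source ∩ B) : Set R4) = 0

end defs

/-- `P` is a closed connected smooth 4-manifold -/
structure IsClosedManifold (P : Type) [TopologicalSpace P] [ChartedSpace R4 P] : Prop where
  compact : CompactSpace P
  hausdorff : T2Space P
  connected : ConnectedSpace P
  smooth : IsManifold (𝓡 4) ∞ P

/-- `c` is a smooth embedding of the open ball of radius two -/
def IsDisc {N : Type} [TopologicalSpace N] [ChartedSpace R4 N] (c : R4 → N) : Prop :=
  InjOn c (ball 0 2) ∧ ∀ z ∈ ball (0 : R4) 2, LocDiff c z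

/-- `M` is (diffeomorphic to) a connected sum of `N` and `P`: there are smooth embeddings `p`, `q`
of the open ball of radius two in `N`, `P` such that `M` is the union of open subsets which are
diffeomorphic, by `i` and `j`, to the complements of the images of the closed ball of radius `1/2`,
where the points `p z` and `q (z / |z|²)`, with `1/2 < |z| < 2`, and no others, are identified. -/
def IsConnSum (M N P : Type) [TopologicalSpace M] [ChartedSpace R4 M]
    [TopologicalSpace N] [ChartedSpace R4 N] [TopologicalSpace P] [ChartedSpace R4 P] :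
    Prop :=
  ∃ (p : R4 → N) (q : R4 → P) (i : N → M) (j : P → M), IsDisc p ∧ IsDisc q ∧
    InjOn i (p '' closedBall 0 (1 / 2))ᶜ ∧ (∀ y ∈ (p '' closedBall 0 (1 / 2))ᶜ, LocDiff i y) ∧
    InjOn j (q '' closedBall 0 (1 / 2))ᶜ ∧ (∀ y ∈ (q '' closedBall 0 (1 / 2))ᶜ, LocDiff j y) ∧
    i '' (p '' closedBall 0 (1 / 2))ᶜ ∪ j '' (q '' closedBall 0 (1 / 2))ᶜ = univ ∧
    ∀ y ∈ (p '' closedBall 0 (1 / 2))ᶜ, ∀ s ∈ (q '' closedBall 0 (1 / 2))ᶜ, i y = j s ↔
      ∃ z : R4, 1 / 2 < ‖z‖ ∧ ‖z‖ < 2 ∧ y = p z ∧ s = q ((‖z‖ ^ 2)⁻¹ • z)

theorem pointSphere : Nonempty (OnePoint R4 ≃ₜ S4) :=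
  ⟨onePointEquivSphereOfFinrankEq (by simp)⟩

/-- **The theorem.** Let `M`, `N` be closed smooth 4-manifolds, where `M` is connected and `N` is
simply connected.

(1) Let `f : M → N` be continuous and let `Z ⊆ N` be a closed set with two-dimensional Hausdorff
measure zero such that every point of `N` off `Z` has exactly one preimage, near which `f` is of
class `C^∞`. Then `M` is a connected sum of `N` and a closed connected smooth 4-manifold `P`, and
`P` is homeomorphic to the 4-sphere if `f` is injective.

(2) Conversely, if `M` is a connected sum of `N` and a closed connected smooth 4-manifold `P`, then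
there is a map `f : M → N` of class `C^∞` and a point `y₀` of `N` such that every point of `N`
different from `y₀` has exactly one preimage. -/
theorem result (M N : Type) [TopologicalSpace M] [CompactSpace M] [T2Space M] [ConnectedSpace M]
    [ChartedSpace R4 M] [IsManifold (𝓡 4) ∞ M] [TopologicalSpace N] [CompactSpace N] [T2Space N]
    [ChartedSpace R4 N] [IsManifold (𝓡 4) ∞ N] [SimplyConnectedSpace N] :
    (∀ (f : M → N) (Z : Set N), Continuous f → IsClosed Z → AreaZero Z →
      (∀ y, y ∉ Z → ∃ x, f x = y ∧ SmoothNear f x ∧ ∀ x', f x' = y → x' = x) →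
      ∃ (P : Type) (_ : TopologicalSpace P) (_ : ChartedSpace R4 P), IsClosedManifold P ∧
        IsConnSum M N P ∧ (Injective f → Nonempty (P ≃ₜ S4))) ∧
    ∀ (P : Type) [TopologicalSpace P] [ChartedSpace R4 P], IsClosedManifold P →
      IsConnSum M N P →
      ∃ (f : M → N) (y₀ : N), SmoothEverywhere f ∧ ∀ y, y ≠ y₀ → ∃! x, f x = y := by
  constructor
  · intro f Z hf hZ hZ0 hgood
    have hinv : Pool.Agent.L0h29.CS.Inv 4 f Z :=
      ⟨hf, hZ, Pool.Agent.L0h29.CS.NullC2.nullH2 hZ0, hgood⟩
    obtain ⟨G, K, d, R, hK, hd, hR, hG, hgoodG, hbij⟩ := Pool.Agent.L0h29.SP.main2 M N f Z hinv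
    -- rescaling of the cell
    let c : R4 → N := fun z => d ((2 * R) • z)
    have h2R : 2 * R ≠ 0 := by positivity
    have hci : Injective c := by
      intro z w hzw
      exact smul_right_injective _ h2R (hd.1 hzw)
    have hcl : ∀ z, Pool.Agent.Y522.LD 4 c z := by
      intro z
      refine Pool.Agent.Y522.LD.comp_fun (g := d) (f := fun z : R4 => (2 * R) • z) (hd.2 _) ?_
      exact Pool.Agent.Y522.LD_linear (ContinuousLinearEquiv.smulLeft (Units.mk0 (2 * R) h2R)) z
    have hcb : c '' closedBall 0 (1 / 2) = d '' closedBall 0 R := by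
      ext y
      constructor
      · rintro ⟨z, hz, rfl⟩
        refine ⟨(2 * R) • z, ?_, rfl⟩
        rw [mem_closedBall_zero_iff] at hz ⊢
        rw [norm_smul, Real.norm_of_nonneg (by positivity)]
        nlinarith
      · rintro ⟨z, hz, rfl⟩
        refine ⟨(2 * R)⁻¹ • z, ?_, ?_⟩
        · rw [mem_closedBall_zero_iff] at hz ⊢
          rw [norm_smul, Real.norm_of_nonneg (by positivity), inv_mul_le_iff₀ (by positivity)]
          linarith
        · show d ((2 * R) • ((2 * R)⁻¹ • z)) = d z
          rw [smul_smul, mul_inv_cancel₀ h2R, one_smul]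
    obtain ⟨P, tP, cP, h1, h2, h3, h4, h5, h6⟩ := Pool.Agent.L0h29.CS.exists_connSum 4
      (by norm_num) M N G hG.cont c hci hcl (fun y hy => by
        rw [hcb] at hy
        obtain ⟨hyZ, hyl⟩ := hgoodG y hy
        obtain ⟨x, hx, -, hxu⟩ := hG.good y hyZ
        exact ⟨x, hx, hyl x hx, hxu⟩)
    refine ⟨P, tP, cP, ⟨h1, h2, h6 (Pool.Agent.N550.TS.Fin2.range_ne_univ c hci hcl) inferInstance, h3⟩, h4,
      fun hfi => ?_⟩
    obtain ⟨e⟩ := pointSphere
    have hfs : Surjective f := by
      have h7 : IsClosed (range f) := (isCompact_range hf).isClosed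
      have h8 : Zᶜ ⊆ range f := fun y hy => by
        obtain ⟨x, hx, -, -⟩ := hgood y hy
        exact ⟨x, hx⟩
      rw [← range_eq_univ]
      by_contra hcon
      obtain ⟨y, hy⟩ : ∃ y, y ∉ range f := by
        by_contra hcon2
        push Not at hcon2
        exact hcon (eq_univ_of_forall hcon2)
      have h9 : IsOpen ((chartAt R4 y).source ∩ (range f)ᶜ) :=
        (chartAt R4 y).open_source.inter h7.isOpen_compl
      have h10 : IsOpen (chartAt R4 y '' ((chartAt R4 y).source ∩ (range f)ᶜ)) :=
        (chartAt R4 y).isOpen_image_of_subset_source h9 inter_subset_left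
      have h11 : MeasureTheory.volume
          (chartAt R4 y '' ((chartAt R4 y).source ∩ (range f)ᶜ) : Set R4) = 0 := by
        apply Pool.Agent.L0h29.CS.volume_null (by norm_num)
        refine MeasureTheory.measure_mono_null (image_mono ?_) (hZ0 y)
        rintro x ⟨hx1, hx2⟩
        refine ⟨hx1, ?_⟩
        by_contra hxZ
        exact hx2 (h8 hxZ)
      exact (h10.measure_pos MeasureTheory.volume
        ⟨_, y, ⟨mem_chart_source R4 y, hy⟩, rfl⟩).ne' h11
    obtain ⟨e'⟩ := h5 (hbij ⟨hfi, hfs⟩)
    exact ⟨e'.trans e⟩
  · intro P _ _ hP hsum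
    have := hP.hausdorff
    have := hP.smooth
    obtain ⟨f, y₀, h1, h2⟩ := Pool.Agent.L0h29.CS.collapse 4 M N P hsum
    refine ⟨f, y₀, h1, fun y hy => ?_⟩
    obtain ⟨x, hx, hu⟩ := h2 y hy
    exact ⟨x, hx, hu⟩

end Pool.Agent.Results.MP_cb9bff_gt.MapsWithOnePreimage
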